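import Pool.Agent.Q262.Ht.N5915Main

/-!
`B(5 · 7 · 13²) = 12822` is not divisible by `5`.
-/

set_option autoImplicit false

open Polynomial

namespace Pool.Agent.Results.MP_68ef1b_nt.NotDivisible

open Q262.Hgt Q262.Kron

theorem result :
    IsGreatest (divisorHeights (5 * 7 * 13 ^ 2)) 12822 ∧
      maxDivisorHeight (5 * 7 * 13 ^ 2) = 12822 ∧
      (∀ n : ℕ, 0 < n → IsGreatest (divisorHeights n) (maxDivisorHeight n)) ∧
      ¬ ∀ p q r b : ℕ, p.Prime → q.Prime → r.Prime → p < q → q < r → 2 ≤ b →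
        p ∣ maxDivisorHeight (p * q * r ^ b) := by
  have h0 : 5 * 7 * 13 ^ 2 = 5915 := by norm_num
  have h1 : maxDivisorHeight (5 * 7 * 13 ^ 2) = 12822 := by rw [h0]; exact maxDivisorHeight_5915
  refine ⟨by rw [h0]; exact isGreatest_5915, h1, isGreatest_maxDivisorHeight, ?_⟩
  intro h
  have h2 := h 5 7 13 2 (by norm_num) (by norm_num) (by norm_num) (by norm_num) (by norm_num)
    le_rfl
  rw [h1] at h2
  norm_num at h2

end Pool.Agent.Results.MP_68ef1b_nt.NotDivisible
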